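import Pool.Agent.Helper93.TH3.StD

/-!
# Project TH3, module Sur: solving the inhomogeneous relation
-/

set_option autoImplicit false

namespace Pool.Agent.Helper89.TH3

open Pool.Agent.Helper93.TH3
open Pool.Agent.Helper14.CV (Homog EqC act Tl StFar StFex)
open Pool.Agent.Helper28.WK (Tw evw)
open Pool.Agent.Helper78.W3 (tr Fn3 Tm opL op3 mulL negL Wd3 dX dY oD oN Lw sS M5 bb3 S3PlA S3Trm S3Low0 S3Nf S3Exp S3Lw1 S3Bb)
open Pool.Agent.Helper93.TLH (HTy SymH SHHk SHHkS LBH)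
open Pool.Agent.Helper93.TLE (DDE)

private theorem alg_even {V : Type} [AddCommGroup V] [Module (ZMod 3) V]
    (N X Y g g' σ : Module.End (ZMod 3) V) (hN : ∀ v, N (N v) = v) (P Q : V)
    {P' Q' f0 : V} (h1 : P' = N P - P) (h2 : Q' = N Q - Q) (h3 : f0 = -(P' + Q')) :
    (X P + Y Q) - (-P' - g (f0 - P' - (-P' - σ (-P'))) + g' f0) =
      -X (N P + P) - Y (N Q + Q)
      - (2 : ZMod 3) • (N (Y f0) + Y (N f0))
      + (g f0 - N (f0 + X f0 - Y f0)) - (g' f0 - N (f0 + X f0 + Y f0))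
      + (2 : ZMod 3) • (N (X P') + X (N P')) - (2 : ZMod 3) • (N (Y P') + Y (N P'))
      + (g P' - N (P' + X P' - Y P'))
      + (N (X (X P')) - N (Y (X P')))
      + (g (X P') - N (X P' + X (X P') - Y (X P')))
      - (N (X (Y P')) - N (Y (Y P')))
      - (g (Y P') - N (Y P' + X (Y P') - Y (Y P')))
      - g ((σ P' - N (P' - X P' + Y P')) - (N (X P') + X (N P')) + (N (Y P') + Y (N P'))) := by
  subst h3
  subst h1
  subst h2
  simp only [hN, map_add, map_sub, map_neg]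
  match_scalars <;> decide

private theorem alg_odd {V : Type} [AddCommGroup V] [Module (ZMod 3) V]
    (N X Y g g' σ : Module.End (ZMod 3) V) (hN : ∀ v, N (N v) = v) (E : V)
    {f1 : V} (h1 : f1 = N E - E) :
    E - (-f1 - g (0 - f1 - (0 - σ 0)) + g' 0) =
      (2 : ZMod 3) • (N E + E) - N (X f1 - Y f1) - (g f1 - N (f1 + X f1 - Y f1)) := by
  subst h1
  simp only [hN, map_add, map_sub, map_zero]
  match_scalars <;> decide

private theorem qT_eq (r s : ℕ) (f0 f1 b : Fn3 (3 ^ r) (3 ^ s)) :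
    (qT f0 f1 0 b 0 : Fn3 (3 ^ r) (3 ^ s)) =
      -f1 - op3 8 (-1) 2 (-2) (f0 - f1 - (b - op3 4 (-1) 2 (-4) b)) + op3 10 1 2 2 f0 := by
  funext x y
  have e1 : (qT f0 f1 0 b 0 : Fn3 (3 ^ r) (3 ^ s)) x y = -f1 x y + 0 -
      (op3 8 (-1) 2 (-2) (f0 - f1 - (b - op3 4 (-1) 2 (-4) b)) : Fn3 (3 ^ r) (3 ^ s)) x y +
      ((op3 10 1 2 2 f0 : Fn3 (3 ^ r) (3 ^ s)) x y - 0 - (0 - 0)) := rfl
  rw [e1, add_zero, sub_zero, sub_zero, sub_zero]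
  rfl

private theorem decomp_Sur (hLow0 : S3Low0) (hBb : S3Bb) (r s : ℕ) (e : ℤ) (E : Fn3 (3 ^ r) (3 ^ s))
    (he : e < 3 ^ r + 3 ^ s - 2) (hE : E ∈ Wd3 e) :
    ∃ U V : Fn3 (3 ^ r) (3 ^ s), U ∈ Wd3 (e + 1) ∧ V ∈ Wd3 (e + 1) ∧ dX U + dY V = E := by
  obtain ⟨_, _, _, _, hmono, _⟩ := hLow0 r s
  obtain ⟨h1, h2, h3, _, _, h6⟩ := hBb r s
  set c : ℕ → ℕ → ZMod 3 := fun i j =>
    ((dX ^ i * dY ^ j : Module.End (ZMod 3) (Fn3 (3 ^ r) (3 ^ s))) E) 0 0 with hc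
  have hc0 : ∀ i j : ℕ, e < (i : ℤ) + j → c i j = 0 := by
    intro i j hij
    have : ((dX ^ i * dY ^ j : Module.End (ZMod 3) (Fn3 (3 ^ r) (3 ^ s))) E) = 0 := hE i j hij
    rw [hc]
    simp only [this]
    rfl
  have hj : ∀ i j : ℕ, i < 3 ^ r → (i : ℤ) + j ≤ e → ¬ (i + 1 < 3 ^ r) → j + 1 < 3 ^ s := by
    intro i j hi hij hi1
    have h7 : i + 1 = 3 ^ r := by omega
    have h8 : (i : ℤ) + 1 = 3 ^ r := by exact_mod_cast h7
    have h9 : (j : ℤ) + 1 < 3 ^ s := by linarith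
    exact_mod_cast h9
  refine ⟨∑ i ∈ Finset.range (3 ^ r), ∑ j ∈ Finset.range (3 ^ s),
      (if i + 1 < 3 ^ r then c i j • bb3 (i + 1) j else 0),
    ∑ i ∈ Finset.range (3 ^ r), ∑ j ∈ Finset.range (3 ^ s),
      (if i + 1 < 3 ^ r then 0 else c i j • bb3 i (j + 1)), ?_, ?_, ?_⟩
  · refine Submodule.sum_mem _ fun i hi => Submodule.sum_mem _ fun j hj => ?_
    rw [Finset.mem_range] at hi hj
    split_ifs with h
    · by_cases hij : (i : ℤ) + j ≤ e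
      · refine Submodule.smul_mem _ _ (hmono _ _ ?_ (h1 (i + 1) j h hj))
        push_cast
        linarith
      · rw [hc0 i j (not_le.1 hij), zero_smul]
        exact Submodule.zero_mem _
    · exact Submodule.zero_mem _
  · refine Submodule.sum_mem _ fun i hi => Submodule.sum_mem _ fun j _ => ?_
    rw [Finset.mem_range] at hi
    split_ifs with h
    · exact Submodule.zero_mem _
    · by_cases hij : (i : ℤ) + j ≤ e
      · refine Submodule.smul_mem _ _ (hmono _ _ ?_ (h1 i (j + 1) hi (hj i j hi hij h)))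
        push_cast
        linarith
      · rw [hc0 i j (not_le.1 hij), zero_smul]
        exact Submodule.zero_mem _
  · refine Eq.trans ?_ (h6 E).symm
    rw [map_sum, map_sum, ← Finset.sum_add_distrib]
    refine Finset.sum_congr rfl fun i hi => ?_
    rw [map_sum, map_sum, ← Finset.sum_add_distrib]
    refine Finset.sum_congr rfl fun j hj' => ?_
    rw [Finset.mem_range] at hi hj'
    have hcc : ((dX ^ i * dY ^ j : Module.End (ZMod 3) (Fn3 (3 ^ r) (3 ^ s))) E) 0 0 = c i j := rfl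
    rw [hcc]
    by_cases h : i + 1 < 3 ^ r
    · rw [if_pos h, if_pos h, map_smul, map_zero, add_zero, h2 i j h hj']
    · rw [if_neg h, if_neg h, map_smul, map_zero, zero_add]
      by_cases hij : (i : ℤ) + j ≤ e
      · rw [h3 i j hi (hj i j hi hij h)]
      · rw [hc0 i j (not_le.1 hij), zero_smul, zero_smul]

/-- One step of the induction. -/
private theorem step_Sur (hLow0 : S3Low0) (hLw1 : S3Lw1) (hw : TLwt) (hBb : S3Bb) (r s : ℕ)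
    (e : ℤ) (E : Fn3 (3 ^ r) (3 ^ s)) (he : e < 3 ^ r + 3 ^ s - 2) (hE : E ∈ Wd3 e) :
    ∃ f0 f1 b : Fn3 (3 ^ r) (3 ^ s), f0 ∈ Wd3 (e + 1) ∧ f1 ∈ Wd3 (e + 1) ∧ b ∈ Wd3 (e + 1) ∧
      (Odd e → f0 ∈ Wd3 e ∧ f1 ∈ Wd3 e ∧ b ∈ Wd3 e) ∧
      E - (-f1 - op3 8 (-1) 2 (-2) (f0 - f1 - (b - op3 4 (-1) 2 (-4) b)) + op3 10 1 2 2 f0) ∈
        (Wd3 (e - 1) : Submodule (ZMod 3) (Fn3 (3 ^ r) (3 ^ s))) := by
  obtain ⟨_, _, _, _, hmono, _, hdX, hdY, _⟩ := hLow0 r s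
  obtain ⟨_, _, _, _, hN0, _, _⟩ := hLw1 r s
  obtain ⟨hNN, hcX, hcY, hev, hod, _, hσ, _, hγ, hγ'⟩ := hw r s
  have hNNv : ∀ v : Fn3 (3 ^ r) (3 ^ s), oN (oN v) = v := fun v => by
    have h := congrArg (fun O : Module.End (ZMod 3) (Fn3 (3 ^ r) (3 ^ s)) => O v) hNN
    exact h
  have hN : ∀ (d : ℤ) (F : Fn3 (3 ^ r) (3 ^ s)), F ∈ Wd3 d → oN F ∈ Wd3 d := by
    intro d F hF
    have := hN0 d F hF
    rwa [sub_zero] at this
  have hX : ∀ (d : ℤ) (F : Fn3 (3 ^ r) (3 ^ s)), F ∈ Wd3 (d + 1) → dX F ∈ Wd3 d := by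
    intro d F hF
    have := hdX _ _ hF
    rwa [add_sub_cancel_right] at this
  have hY : ∀ (d : ℤ) (F : Fn3 (3 ^ r) (3 ^ s)), F ∈ Wd3 (d + 1) → dY F ∈ Wd3 d := by
    intro d F hF
    have := hdY _ _ hF
    rwa [add_sub_cancel_right] at this
  have hsub : ∀ (d : ℤ), (Wd3 (d - 1) : Submodule (ZMod 3) (Fn3 (3 ^ r) (3 ^ s))) ≤ Wd3 d :=
    fun d => hmono _ _ (by linarith)
  -- residuals
  have rσ : ∀ (d : ℤ) (F : Fn3 (3 ^ r) (3 ^ s)), F ∈ Wd3 d →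
      op3 4 (-1) 2 (-4) F - oN (F - dX F + dY F) ∈ Wd3 (d - 2) := fun d F hF => hσ d F hF
  have rγ : ∀ (d : ℤ) (F : Fn3 (3 ^ r) (3 ^ s)), F ∈ Wd3 d →
      op3 8 (-1) 2 (-2) F - oN (F + dX F - dY F) ∈ Wd3 (d - 2) := fun d F hF => hγ d F hF
  have rγ' : ∀ (d : ℤ) (F : Fn3 (3 ^ r) (3 ^ s)), F ∈ Wd3 d →
      op3 10 1 2 2 F - oN (F + dX F + dY F) ∈ Wd3 (d - 2) := fun d F hF => hγ' d F hF
  have cX : ∀ (d : ℤ) (F : Fn3 (3 ^ r) (3 ^ s)), F ∈ Wd3 d →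
      oN (dX F) + dX (oN F) ∈ Wd3 (d - 2) := fun d F hF => hcX d F hF
  have cY : ∀ (d : ℤ) (F : Fn3 (3 ^ r) (3 ^ s)), F ∈ Wd3 d →
      oN (dY F) + dY (oN F) ∈ Wd3 (d - 2) := fun d F hF => hcY d F hF
  have gpres : ∀ (d : ℤ) (F : Fn3 (3 ^ r) (3 ^ s)), F ∈ Wd3 d →
      op3 8 (-1) 2 (-2) F ∈ Wd3 d := by
    intro d F hF
    have h1 : op3 8 (-1) 2 (-2) F - oN (F + dX F - dY F) ∈ (Wd3 d : Submodule (ZMod 3) (Fn3 (3 ^ r) (3 ^ s))) :=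
      hmono _ _ (by linarith) (rγ d F hF)
    have hFX : dX F ∈ (Wd3 d : Submodule (ZMod 3) (Fn3 (3 ^ r) (3 ^ s))) :=
      hsub _ (hX _ _ (by rwa [sub_add_cancel]))
    have hFY : dY F ∈ (Wd3 d : Submodule (ZMod 3) (Fn3 (3 ^ r) (3 ^ s))) :=
      hsub _ (hY _ _ (by rwa [sub_add_cancel]))
    have h2 : oN (F + dX F - dY F) ∈ (Wd3 d : Submodule (ZMod 3) (Fn3 (3 ^ r) (3 ^ s))) :=
      hN _ _ (Submodule.sub_mem _ (Submodule.add_mem _ hF hFX) hFY)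
    have h3 := Submodule.add_mem _ h1 h2
    rwa [sub_add_cancel] at h3
  rcases Int.even_or_odd e with hpar | hpar
  · obtain ⟨P, Q, hP, hQ, hPQ⟩ := decomp_Sur hLow0 hBb r s e E he hE
    have hodd : Odd (e + 1) := hpar.add_one
    obtain ⟨P', hP'⟩ : ∃ P' : Fn3 (3 ^ r) (3 ^ s), P' = oN P - P := ⟨_, rfl⟩
    obtain ⟨Q', hQ'⟩ : ∃ Q' : Fn3 (3 ^ r) (3 ^ s), Q' = oN Q - Q := ⟨_, rfl⟩
    obtain ⟨f0, hf0⟩ : ∃ f0 : Fn3 (3 ^ r) (3 ^ s), f0 = -(P' + Q') := ⟨_, rfl⟩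
    have mP' : P' ∈ (Wd3 (e + 1) : Submodule (ZMod 3) (Fn3 (3 ^ r) (3 ^ s))) := by
      rw [hP']
      exact Submodule.sub_mem _ (hN _ _ hP) hP
    have mQ' : Q' ∈ (Wd3 (e + 1) : Submodule (ZMod 3) (Fn3 (3 ^ r) (3 ^ s))) := by
      rw [hQ']
      exact Submodule.sub_mem _ (hN _ _ hQ) hQ
    have mf0 : f0 ∈ (Wd3 (e + 1) : Submodule (ZMod 3) (Fn3 (3 ^ r) (3 ^ s))) := by
      rw [hf0]
      exact Submodule.neg_mem _ (Submodule.add_mem _ mP' mQ')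
    refine ⟨f0, P', -P', mf0, mP', Submodule.neg_mem _ mP',
      fun ho => absurd ho (Int.not_odd_iff_even.2 hpar), ?_⟩
    rw [← hPQ, alg_even oN dX dY (op3 8 (-1) 2 (-2)) (op3 10 1 2 2) (op3 4 (-1) 2 (-4)) hNNv P Q
      hP' hQ' hf0]
    have l2 : ∀ F : Fn3 (3 ^ r) (3 ^ s), F ∈ Wd3 (e + 1 - 2) → F ∈ Wd3 (e - 1) := fun F hF => by
      rwa [show e + 1 - 2 = e - 1 by ring] at hF
    have l3 : ∀ F : Fn3 (3 ^ r) (3 ^ s), F ∈ Wd3 (e - 2) → F ∈ Wd3 (e - 1) := fun F hF =>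
      hmono _ _ (by linarith) hF
    have mX : dX P' ∈ (Wd3 e : Submodule (ZMod 3) (Fn3 (3 ^ r) (3 ^ s))) := hX _ _ mP'
    have mY : dY P' ∈ (Wd3 e : Submodule (ZMod 3) (Fn3 (3 ^ r) (3 ^ s))) := hY _ _ mP'
    have hX' : ∀ F : Fn3 (3 ^ r) (3 ^ s), F ∈ Wd3 e → dX F ∈ Wd3 (e - 1) := fun F hF =>
      hX _ _ (by rwa [sub_add_cancel])
    have hY' : ∀ F : Fn3 (3 ^ r) (3 ^ s), F ∈ Wd3 e → dY F ∈ Wd3 (e - 1) := fun F hF =>
      hY _ _ (by rwa [sub_add_cancel])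
    have cS : ∀ F : Fn3 (3 ^ r) (3 ^ s), F ∈ Wd3 (e + 1) → oN F + F ∈ Wd3 e := fun F hF => by
      have := hod (e + 1) F hF hodd
      rwa [add_sub_cancel_right] at this
    refine Submodule.sub_mem _ (Submodule.sub_mem _ (Submodule.sub_mem _ (Submodule.add_mem _
      (Submodule.add_mem _ (Submodule.add_mem _ (Submodule.sub_mem _ (Submodule.add_mem _
      (Submodule.sub_mem _ (Submodule.add_mem _ (Submodule.sub_mem _ (Submodule.sub_mem _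
      (Submodule.neg_mem _ ?_) ?_) ?_) ?_) ?_) ?_) ?_) ?_) ?_) ?_) ?_) ?_) ?_
    · exact hX' _ (cS _ hP)
    · exact hY' _ (cS _ hQ)
    · exact Submodule.smul_mem _ _ (l2 _ (cY _ _ mf0))
    · exact l2 _ (rγ _ _ mf0)
    · exact l2 _ (rγ' _ _ mf0)
    · exact Submodule.smul_mem _ _ (l2 _ (cX _ _ mP'))
    · exact Submodule.smul_mem _ _ (l2 _ (cY _ _ mP'))
    · exact l2 _ (rγ _ _ mP')
    · exact Submodule.sub_mem _ (hN _ _ (hX' _ mX)) (hN _ _ (hY' _ mX))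
    · exact l3 _ (rγ _ _ mX)
    · exact Submodule.sub_mem _ (hN _ _ (hX' _ mY)) (hN _ _ (hY' _ mY))
    · exact l3 _ (rγ _ _ mY)
    · exact gpres _ _ (Submodule.add_mem _ (Submodule.sub_mem _ (l2 _ (rσ _ _ mP'))
        (l2 _ (cX _ _ mP'))) (l2 _ (cY _ _ mP')))
  · obtain ⟨f1, hf1⟩ : ∃ f1 : Fn3 (3 ^ r) (3 ^ s), f1 = oN E - E := ⟨_, rfl⟩
    have mf1 : f1 ∈ (Wd3 e : Submodule (ZMod 3) (Fn3 (3 ^ r) (3 ^ s))) := by
      rw [hf1]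
      exact Submodule.sub_mem _ (hN _ _ hE) hE
    refine ⟨0, f1, 0, Submodule.zero_mem _, hmono _ _ (by linarith) mf1, Submodule.zero_mem _,
      fun _ => ⟨Submodule.zero_mem _, mf1, Submodule.zero_mem _⟩, ?_⟩
    rw [alg_odd oN dX dY (op3 8 (-1) 2 (-2)) (op3 10 1 2 2) (op3 4 (-1) 2 (-4)) hNNv E hf1]
    have h1 := hod e _ hE hpar
    have hX' : dX f1 ∈ (Wd3 (e - 1) : Submodule (ZMod 3) (Fn3 (3 ^ r) (3 ^ s))) :=
      hX _ _ (by rwa [sub_add_cancel])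
    have hY' : dY f1 ∈ (Wd3 (e - 1) : Submodule (ZMod 3) (Fn3 (3 ^ r) (3 ^ s))) :=
      hY _ _ (by rwa [sub_add_cancel])
    exact Submodule.sub_mem _ (Submodule.sub_mem _ (Submodule.smul_mem _ _ h1)
      (hN _ _ (Submodule.sub_mem _ hX' hY'))) (hmono _ _ (by linarith) (rγ _ _ mf1))

private theorem main_Sur (hLow0 : S3Low0) (hLw1 : S3Lw1) (hw : TLwt) (hBb : S3Bb) (r s : ℕ) :
    ∀ (n : ℕ) (e : ℤ) (E : Fn3 (3 ^ r) (3 ^ s)), e < n → e < 3 ^ r + 3 ^ s - 2 → E ∈ Wd3 e →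
    ∃ f0 f1 b : Fn3 (3 ^ r) (3 ^ s), f0 ∈ Wd3 (e + 1) ∧ f1 ∈ Wd3 (e + 1) ∧ b ∈ Wd3 (e + 1) ∧
      (Odd e → f0 ∈ Wd3 e ∧ f1 ∈ Wd3 e ∧ b ∈ Wd3 e) ∧
      -f1 - op3 8 (-1) 2 (-2) (f0 - f1 - (b - op3 4 (-1) 2 (-4) b)) + op3 10 1 2 2 f0 = E := by
  have hL := hLow0 r s
  obtain ⟨_, _, _, _, hmono, _, _, _, _, _, _, _, _, hneg⟩ := hL
  intro n
  induction n with
  | zero =>
    intro e E he _ hE
    have h1 : E = 0 := hneg E (hmono e (-1) (by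
      have : e < 0 := by exact_mod_cast he
      omega) hE)
    refine ⟨0, 0, 0, Submodule.zero_mem _, Submodule.zero_mem _, Submodule.zero_mem _,
      fun _ => ⟨Submodule.zero_mem _, Submodule.zero_mem _, Submodule.zero_mem _⟩, ?_⟩
    rw [h1]
    simp
  | succ n ih =>
    intro e E he he2 hE
    obtain ⟨f0, f1, b, hf0, hf1, hb, ho, hR⟩ := step_Sur hLow0 hLw1 hw hBb r s e E he2 hE
    obtain ⟨g0, g1, c, hg0, hg1, hc, _, hR'⟩ := ih (e - 1) _ (by push_cast at he; linarith)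
      (by linarith) hR
    have h6 : e - 1 + 1 = e := by ring
    rw [h6] at hg0 hg1 hc
    refine ⟨f0 + g0, f1 + g1, b + c, Submodule.add_mem _ hf0 (hmono _ _ (by linarith) hg0),
      Submodule.add_mem _ hf1 (hmono _ _ (by linarith) hg1),
      Submodule.add_mem _ hb (hmono _ _ (by linarith) hc), ?_, ?_⟩
    · intro hodd
      obtain ⟨k0, k1, k2⟩ := ho hodd
      exact ⟨Submodule.add_mem _ k0 hg0, Submodule.add_mem _ k1 hg1, Submodule.add_mem _ k2 hc⟩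
    · have h7 : -(f1 + g1) - op3 8 (-1) 2 (-2) (f0 + g0 - (f1 + g1) -
          (b + c - op3 4 (-1) 2 (-4) (b + c))) + op3 10 1 2 2 (f0 + g0) =
          (-f1 - op3 8 (-1) 2 (-2) (f0 - f1 - (b - op3 4 (-1) 2 (-4) b)) + op3 10 1 2 2 f0) +
          (-g1 - op3 8 (-1) 2 (-2) (g0 - g1 - (c - op3 4 (-1) 2 (-4) c)) + op3 10 1 2 2 g0) := by
        simp only [map_add, map_sub]
        abel
      rw [h7, hR']
      abel

theorem hSur (_ht : S3Trm) (hl : S3Low0) (h1 : S3Lw1) (hw : TLwt) (hb : S3Bb) : TSur := by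
  intro r s e E he hE
  obtain ⟨f0, f1, b, a1, a2, a3, a4, a5⟩ := main_Sur hl h1 hw hb r s (e + 1).toNat e E (by
    have := Int.self_le_toNat (e + 1)
    linarith) he hE
  exact ⟨f0, f1, b, a1, a2, a3, a4, by rw [qT_eq]; exact a5⟩

end Pool.Agent.Helper89.TH3
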